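import Pool.Agent.N208.OU.Defs

set_option autoImplicit false

/-!
# Centres of abelian type, and determined abelian varieties: definitions
-/

open Module Matrix TensorProduct Pool.Agent.Y102 Pool.Agent.R917.OM Pool.Agent.N208.OneM

noncomputable section

namespace Pool.Agent.V8H93.PM

section Abelian

variable {g : ℕ} (C : AbVar g)

/-! ### Centres of abelian type -/

/-- `Φ` is a type: it contains exactly one of the elements `γ`, `c + γ`, for all `γ`. -/
def IsType {Γ : Type} [AddCommGroup Γ] (c : Γ) (Φ : Finset Γ) : Prop := ∀ γ, γ ∈ Φ ↔ c + γ ∉ Φ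

/-- `v` is a common eigenvector of the centre of `𝔤` in `H_1(C, ℂ)`, with the eigenvalues `χ X`. -/
def IsEigen (χ : EndQ C → ℂ) (v : Fin (2 * g) → ℂ) : Prop :=
  v ≠ 0 ∧ ∀ X, InCentre C X → toC C X *ᵥ v = χ X • v

/-- **The centre of `𝔤` is of abelian type.** -/
structure AbelianCentre {Γ : Type} [AddCommGroup Γ] [Fintype Γ] (c : Γ) (ε : Γ → EndQ C → ℂ) :
    Prop where
  /-- the element `c` (the complex conjugation) has order one or two -/
  two : c + c = 0
  /-- the functions are odd -/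
  odd : ∀ γ X, InCentre C X → ε (c + γ) X = - ε γ X
  /-- the translations by elements of `Γ` are given by automorphisms of `ℂ` -/
  galois : ∀ γ, ∃ σ : ℂ ≃+* ℂ, ∀ γ' X, InCentre C X → σ (ε γ' X) = ε (γ + γ') X
  /-- all types occur, on the part of the homology on which `[𝔤, 𝔤]` acts trivially -/
  types : ∀ Φ : Finset Γ, IsType c Φ → ∃ v, IsEigen C (fun X => ∑ γ ∈ Φ, ε γ X) v ∧
    ∀ Y ∈ derivedLie C, toC C Y *ᵥ v = 0
  /-- different types are different on the centre -/
  distinct : ∀ Φ Φ' : Finset Γ, IsType c Φ → IsType c Φ' →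
    (∀ X, InCentre C X → ∑ γ ∈ Φ, ε γ X = ∑ γ ∈ Φ', ε γ X) → Φ = Φ'
  /-- the eigenvalues of the common eigenvectors of the centre are combinations of the `ε γ` -/
  rational : ∀ χ v, IsEigen C χ v → ∃ q : Γ → ℚ, ∀ X, InCentre C X → χ X = ∑ γ, (q γ : ℂ) * ε γ X

/-! ### Determined abelian varieties -/

/-- The rational matrices which act on `H_1(C, ℚ) = ℚ^(2g)` (the basis is the basis of the
lattice). -/
abbrev Mat (g : ℕ) : Type := Matrix (Fin (2 * g)) (Fin (2 * g)) ℚ

/-- The endomorphism of `H_1(C, ℚ)` given by a matrix. -/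
def act (X : Mat g) : EndQ C := Matrix.toLin' X

/-- `𝔥` is closed under the replicas of its diagonalizable elements. Let `X ∈ 𝔥` be diagonalizable
over `ℂ`, with eigenvalues in the finite set `S`, let `σ : ℂ → ℂ` be additive, and let `Q` be a
polynomial with `Q(a) = σ(a)` for all `a ∈ S`. Then the matrix `Q(X)` is in the complex span of
`𝔥`. -/
def IsReplicaClosed {g : ℕ} (𝔥 : Submodule ℚ (Mat g)) : Prop :=
  ∀ X ∈ 𝔥, ∀ (S : Finset ℂ) (σ : ℂ →+ ℂ) (Q : Polynomial ℂ),
    Polynomial.aeval (cplx X) (∏ a ∈ S, (Polynomial.X - Polynomial.C a)) = 0 →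
    (∀ a ∈ S, Q.eval a = σ a) →
      Polynomial.aeval (cplx X) Q ∈ Submodule.span ℂ {Y | ∃ Z ∈ 𝔥, Y = cplx Z}

/-- The subspace `U` of the homology is stable under the elements of `𝔥`. -/
def Stable {g : ℕ} (𝔥 : Submodule ℚ (Mat g)) (U : Submodule ℚ (Fin (2 * g) → ℚ)) : Prop :=
  ∀ X ∈ 𝔥, ∀ u ∈ U, X *ᵥ u ∈ U

/-- The Hodge group of `C` is determined by the endomorphisms of `C`: the Lie algebra `𝔤` has no
proper algebraic subalgebra `𝔥` which acts semisimply on the homology and has the same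
commutant. -/
def Determined : Prop :=
  ∀ 𝔥 : Submodule ℚ (Mat g), (∀ X ∈ 𝔥, InLie C (act C X)) →
    (∀ X ∈ 𝔥, ∀ Y ∈ 𝔥, X * Y - Y * X ∈ 𝔥) → IsReplicaClosed 𝔥 →
    (∀ U, Stable 𝔥 U → ∃ U', Stable 𝔥 U' ∧ IsCompl U U') →
    (∀ P : Mat g, (∀ X ∈ 𝔥, X * P = P * X) → ∀ X : Mat g, InLie C (act C X) → X * P = P * X) →
    ∀ X, InLie C (act C X) → X ∈ 𝔥

/-- The Lie algebra `𝔤` acts on the complement of the factor `B` (the vectors `w - f (p w)`) by
commuting endomorphisms. -/
def CommutesOff {g₁ : ℕ} (B : AbVar g₁) (f : B.H1 →ₗ[ℚ] C.H1) (p : C.H1 →ₗ[ℚ] B.H1) : Prop :=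
  ∀ X Y, InLie C X → InLie C Y → ∀ w, Br C X Y (w - f (p w)) = 0

end Abelian

/-! ### The action on the homology of the abelian part -/

/-- The matrix `Z` acts on the graded piece of weight `-1` of the homology of the 1-motive, which is the
homology of `A`, by `Y + q` (the rows of the matrix `Z` are the images of the elements of the basis). -/
def ActsAs {g n s : ℕ} (A : AbVarG g) (Z : Matrix (Betti g n s) (Betti g n s) ℚ)
    (Y : EndQ A.toAbVar) (q : ℚ) : Prop :=
  ∀ i j, Z (Sum.inl i) (Sum.inl j) = Y (Pi.single i 1) j + if i = j then q else 0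

end Pool.Agent.V8H93.PM
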