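import Pool.Agent.V8H93.PM.Main
import Pool.Agent.V8H93.PM.Defs

set_option autoImplicit false
set_option linter.unusedVariables false

/-!
# Centres of abelian type, and determined abelian varieties: proofs
-/

open Module Matrix TensorProduct Pool.Agent.Y102 Pool.Agent.R917.OM Pool.Agent.N208.OneM

noncomputable section

namespace Pool.Agent.V8H93.PM

/-! ### Proofs -/

section Proofs

variable {g : ℕ} {C : AbVar g}

theorem inCentre_iff (X : EndQ C) : InCentre C X ↔ X ∈ C.CN :=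
  ⟨fun h => ⟨h.1, fun Y hY => h.2 Y hY⟩, fun h => ⟨h.1, fun Y hY => h.2 Y hY⟩⟩

/-- the coordinates of complex vectors -/
def coords {k : ℕ} : (ℂ ⊗[ℚ] (Fin k → ℚ)) ≃ₗ[ℂ] (Fin k → ℂ) :=
  (Algebra.TensorProduct.basis ℂ (Pi.basisFun ℚ (Fin k))).equivFun

theorem coords_bc {k : ℕ} (X : Module.End ℚ (Fin k → ℚ)) (v : ℂ ⊗[ℚ] (Fin k → ℚ)) :
    coords (X.baseChange ℂ v) = (Matrix.of fun i j => (X (Pi.single j 1) i : ℂ)) *ᵥ coords v := by
  have h1 := LinearMap.toMatrix_mulVec_repr (Algebra.TensorProduct.basis ℂ (Pi.basisFun ℚ (Fin k)))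
    (Algebra.TensorProduct.basis ℂ (Pi.basisFun ℚ (Fin k))) (X.baseChange ℂ) v
  rw [toMatrix_bc] at h1
  have h2 : (Matrix.of fun i j => (X (Pi.single j 1) i : ℂ)) = Pool.Agent.Y102.toC X := rfl
  rw [h2]
  exact h1.symm

theorem AbelianCentre.toAbCen {Γ : Type} [AddCommGroup Γ] [Fintype Γ] {c : Γ}
    {ε : Γ → EndQ C → ℂ} (h : AbelianCentre C c ε) : V8H77.PC.AbCen C c ε where
  two := h.two
  odd := fun γ X hX => h.odd γ X ((inCentre_iff X).2 hX)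
  galois := fun γ => by
    obtain ⟨σ, hσ⟩ := h.galois γ
    exact ⟨σ.toRingHom, fun γ' X hX => hσ γ' X ((inCentre_iff X).2 hX)⟩
  types := fun Φ hΦ => by
    obtain ⟨v, ⟨hv0, hv⟩, hd⟩ := h.types Φ hΦ
    refine ⟨coords.symm v, ?_, fun Y hY Z hZ => ?_, fun X hX => ?_⟩
    · intro h0
      exact hv0 ((LinearEquiv.map_eq_zero_iff _).1 h0)
    · apply coords.injective
      rw [coords_bc, LinearEquiv.apply_symm_apply, map_zero]
      exact hd _ (Submodule.subset_span ⟨Y, hY, Z, hZ, rfl⟩)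
    · apply coords.injective
      rw [coords_bc, LinearEquiv.apply_symm_apply, map_smul, LinearEquiv.apply_symm_apply]
      exact hv X ((inCentre_iff X).2 hX)
  distinct := fun Φ Φ' hΦ hΦ' he => h.distinct Φ Φ' hΦ hΦ' fun X hX => he X ((inCentre_iff X).1 hX)
  rational := fun v χ hv hχ => by
    obtain ⟨q, hq⟩ := h.rational χ (coords v) ⟨fun h0 => hv ((LinearEquiv.map_eq_zero_iff _).1 h0),
      fun X hX => by
        have h1 := congrArg coords (hχ X ((inCentre_iff X).1 hX))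
        rw [coords_bc, map_smul] at h1
        exact h1⟩
    exact ⟨q, fun X hX => hq X ((inCentre_iff X).2 hX)⟩

/-- the matrix of an endomorphism of the homology -/
def mat (X : EndQ C) : Mat g := LinearMap.toMatrix' X

theorem mat_mulVec (X : EndQ C) (v : Fin (2 * g) → ℚ) : mat X *ᵥ v = X v :=
  LinearMap.toMatrix'_mulVec X v

theorem mat_mul (X Y : EndQ C) : mat (X * Y) = mat X * mat Y :=
  LinearMap.toMatrix'_mul X Y

theorem mat_br (X Y : EndQ C) : mat (X * Y - Y * X) = mat X * mat Y - mat Y * mat X := by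
  rw [← mat_mul, ← mat_mul]
  exact map_sub (LinearMap.toMatrix' : _ ≃ₗ[ℚ] Mat g) _ _

theorem mat_inj {X Y : EndQ C} (h : mat X = mat Y) : X = Y :=
  (LinearMap.toMatrix' : _ ≃ₗ[ℚ] Mat g).injective h

theorem mat_surj (X : Mat g) : ∃ Y : EndQ C, mat Y = X :=
  (LinearMap.toMatrix' : _ ≃ₗ[ℚ] Mat g).surjective X

theorem act_mat (X : EndQ C) : act C (mat X) = X := Matrix.toLin'_toMatrix' X

theorem cplx_mat (X : EndQ C) : cplx (mat X) = Pool.Agent.Y102.toC X := (toC_eq X).symm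

theorem span_mat (𝔥 : Submodule ℚ (EndQ C)) (𝔥' : Submodule ℚ (Mat g))
    (h : ∀ X : EndQ C, mat X ∈ 𝔥' ↔ X ∈ 𝔥) :
    Submodule.span ℂ {Y | ∃ Z ∈ 𝔥', Y = cplx Z} =
      Submodule.span ℂ {Y | ∃ Z ∈ 𝔥, Y = Pool.Agent.Y102.toC Z} := by
  congr 1
  ext Y
  constructor
  · rintro ⟨Z, hZ, rfl⟩
    obtain ⟨Z, rfl⟩ := mat_surj (C := C) Z
    exact ⟨Z, (h Z).1 hZ, cplx_mat Z⟩
  · rintro ⟨Z, hZ, rfl⟩
    exact ⟨mat Z, (h Z).2 hZ, (cplx_mat Z).symm⟩

theorem det_of_determined (hA : Determined C) : Pool.Agent.R917.DT.Det C := by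
  intro 𝔥 h hRC
  let 𝔥' : Submodule ℚ (Mat g) := 𝔥.map (LinearMap.toMatrix' : _ ≃ₗ[ℚ] Mat g).toLinearMap
  have hmem : ∀ X : EndQ C, mat X ∈ 𝔥' ↔ X ∈ 𝔥 := by
    intro X
    constructor
    · rintro ⟨Y, hY, hYX⟩
      rw [← mat_inj hYX]
      exact hY
    · intro hX
      exact ⟨X, hX, rfl⟩
  intro X hX
  rw [← hmem]
  refine hA 𝔥' ?_ ?_ ?_ ?_ ?_ _ (by rw [act_mat]; exact hX)
  · rintro _ ⟨Y, hY, rfl⟩
    change InLie C (act C (mat (C := C) Y))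
    rw [act_mat]
    exact h.le hY
  · rintro _ ⟨Y, hY, rfl⟩ _ ⟨Z, hZ, rfl⟩
    have h1 := (hmem (Y * Z - Z * Y)).2 (h.br Y hY Z hZ)
    rw [mat_br] at h1
    exact h1
  · rintro _ ⟨Y, hY, rfl⟩ S σ Q hS hQ
    rw [span_mat 𝔥 𝔥' hmem]
    change Polynomial.aeval (cplx (mat (C := C) Y)) _ = 0 at hS
    change Polynomial.aeval (cplx (mat (C := C) Y)) Q ∈ _
    rw [cplx_mat] at hS ⊢
    exact Pool.Agent.R917.DT.rc_iff.1 hRC Y hY S σ Q hS hQ
  · intro U hU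
    obtain ⟨U', h1, h2⟩ := h.semi U (fun Y hY u hu => by
      have h3 := hU _ ((hmem Y).2 hY) u hu
      rwa [mat_mulVec] at h3)
    refine ⟨U', ?_, h2⟩
    rintro _ ⟨Y, hY, rfl⟩ u hu
    have h3 := h1 Y hY u hu
    rwa [← mat_mulVec] at h3
  · intro P hP Y hY
    obtain ⟨P, rfl⟩ := mat_surj (C := C) P
    obtain ⟨Y, rfl⟩ := mat_surj (C := C) Y
    rw [act_mat] at hY
    rw [← mat_mul, ← mat_mul]
    congr 1
    refine h.comm P (fun Z hZ => mat_inj ?_) Y hY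
    rw [mat_mul, mat_mul]
    exact hP _ ((hmem Z).2 hZ)

end Proofs

theorem main_all (g n s : ℕ) (A : AbVarG g) (u : Fin n → Fin g → ℂ) (v : Fin s → Fin g → ℂ)
    (ℓ : Fin n → Fin s → ℂ) (hM : IsOneMotive A u v ℓ)
    (G : Subgroup (GL (Betti g n s) ℂ)) (hG : IsAlgebraicSubgroup G)
    (hP : ContainsPeriods A u v ℓ G) (g' : ℕ) (C : AbVar g') (f : A.toAbVar.H1 →ₗ[ℚ] C.H1)
    (p : C.H1 →ₗ[ℚ] A.toAbVar.H1) (hF : IsFactor A.toAbVar C f p)
    (Γ : Type) [AddCommGroup Γ] [Fintype Γ] (c : Γ) (ε : Γ → EndQ C → ℂ)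
    (hC : AbelianCentre C c ε) :
    (∀ X, InCentre C X → ∀ Z ∈ mtLie A u v ℓ, ∀ q : ℚ, ActsAs A Z (restr A.toAbVar C f p X) q →
      ∀ t : ℂ, IsIn G (NormedSpace.exp (t • cplx Z))) ∧
    ((∀ X Y, InLie C X → InLie C Y → Cm C X Y) → mumfordTate A u v ℓ ≤ G) ∧
    (∀ (g₁ : ℕ) (B : AbVar g₁) (f₁ : B.H1 →ₗ[ℚ] C.H1) (p₁ : C.H1 →ₗ[ℚ] B.H1),
      IsFactor B C f₁ p₁ → Determined B → CommutesOff C B f₁ p₁ → mumfordTate A u v ℓ ≤ G) ∧
    (∀ (z : EndQ C) (S : Finset ℝ), UnitaryPart C z S → DomainOf A.toAbVar C f p z S →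
      mumfordTate A u v ℓ ≤ G) := by
  have hrig := hC.toAbCen.rigid
  refine ⟨fun X hX Z hZ q hq t => ?_, fun hcomm => ?_, fun g₁ B f₁ p₁ hB hdet hoff => ?_,
    fun z S hU hD => ?_⟩
  · exact V8H93.PM.main_cen hM hG hP (hfac hF) hrig ((inCentre_iff X).1 hX) hZ hq t
  · refine V8H93.PM.main_mt hM hG hP (V8H93.PM.detJ_of_der (hfac hF) hrig
      fun 𝔮 hle hbr h0 hRC => ?_)
    have h3 : Pool.Agent.Y102.der C.NA = ⊥ := by
      rw [eq_bot_iff]
      refine Submodule.span_le.2 ?_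
      rintro _ ⟨X, hX, Y, hY, rfl⟩
      have h4 : X * Y = Y * X := hcomm X Y hX hY
      rw [SetLike.mem_coe, Submodule.mem_bot, h4, sub_self]
    rw [h3]
    exact bot_le
  · refine V8H93.PM.main_mt hM hG hP (V8H93.PM.detJ_of_der (hfac hF) hrig
      fun 𝔮 hle hbr h0 hRC => ?_)
    exact V8H93.PM.der_le_of_fac ⟨⟨hB.inclusion.1, hB.inclusion.2⟩,
      ⟨hB.projection.1, hB.projection.2⟩, hB.split⟩ (det_of_determined hdet)
      (fun X hX Y hY w => hoff X Y hX hY w) hle hbr h0 hRC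
  · exact V8H93.PM.main_mt hM hG hP
      (N208.OU.detJ_of (hfac hF) hrig (hU.toRPart C) (hdom hF hU hD))

end Pool.Agent.V8H93.PM
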