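import Pool.Agent.V8H93.PM.Prod

set_option autoImplicit false
set_option linter.unusedSectionVars false
set_option linter.unusedSimpArgs false

/-!
# 1-motives over abelian varieties whose centre is rigid
-/

open Module Matrix Pool.Agent.Y102 Pool.Agent.R917.OM Pool.Agent.R917.BX Pool.Agent.W516.DR
  Pool.Agent.H204R3.GP Pool.Agent.N208.UR

noncomputable section

namespace Pool.Agent.V8H93.PM

open Pool.Agent.N208.OneM

/-- The complex structure of a factor is in the Lie algebra if the centre is rigid and the derived algebra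
is in the Lie algebra. -/
theorem detJ_of_der {g g' : ℕ} {A : AbVar g} {C : AbVar g'} {f : A.H1 →ₗ[ℚ] C.H1}
    {p : C.H1 →ₗ[ℚ] A.H1} (h : Pool.Agent.R917.DT.Fac A C f p) (hrig : N208.CT.Rigid C)
    (hder : ∀ 𝔮 : Submodule ℚ (Module.End ℚ C.H1), 𝔮 ≤ C.NA →
      (∀ X ∈ 𝔮, ∀ Y ∈ 𝔮, X * Y - Y * X ∈ 𝔮) →
      (∀ (D : Derivation QBar ℂ ℂ) (lam : ℂ →ₗ[ℚ] ℚ),
        Pool.Agent.W516.DR.X0 C.basis tau D lam ∈ 𝔮) →
      Pool.Agent.R917.DT.RC 𝔮 → Pool.Agent.Y102.der C.NA ≤ 𝔮) : Pool.Agent.R917.DT.DetJ A := by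
  intro 𝔥 hle hbr h0 hRC r
  have hF := h.qq_full hbr h0
  have hC := N208.OU.CN_le hF (h.qq_RC hRC) hrig
  have hD := hder _ hF.le hF.br (fun D lam => by
    refine ⟨C.LA_le_NA ?_, ?_⟩
    · rw [AbVar.LA_eq]
      exact Pool.Agent.W516.DR.X0_mem C.basis AbVar.tau_ne D lam
    · change Pool.Agent.R917.DT.rs f p (Pool.Agent.W516.DR.X0 C.basis tau D lam) ∈ 𝔥
      rw [h.rs_X0]
      exact h0 D lam) (h.qq_RC hRC)
  have h1 : C.cmpE r AbVar.JJ ∈ C.NA := C.MA_le_NA (C.J_mem r)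
  obtain ⟨Z, hZ, d, hd, hXd, hc⟩ := (Pool.Agent.R917.DT.full_NA (A := C)).dec h1
  have h2 : C.cmpE r AbVar.JJ ∈ Pool.Agent.R917.DT.Fac.qq f p 𝔥 := by
    rw [hXd]
    exact Submodule.add_mem _ (hC ⟨hZ, fun Y hY => (hc Y hY).symm⟩) (hD hd)
  have h3 : Pool.Agent.R917.DT.rs f p (C.cmpE r AbVar.JJ) ∈ 𝔥 := h2.2
  rwa [h.rs_J] at h3

section Final

variable {g n s : ℕ} {A : AbVarG g} {u : Fin n → Fin g → ℂ} {v : Fin s → Fin g → ℂ}
  {ℓ : Fin n → Fin s → ℂ} {G : Subgroup (GL (Betti g n s) ℂ)}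
  {g' : ℕ} {C : AbVar g'} {f : A.toAbVar.H1 →ₗ[ℚ] C.H1} {p : C.H1 →ₗ[ℚ] A.toAbVar.H1}

/-- The Mumford-Tate group is in the group. -/
theorem main_mt (hM : IsOneMotive A u v ℓ) (hG : IsAlgebraicSubgroup G)
    (hP : ContainsPeriods A u v ℓ G) (hdet : Pool.Agent.R917.DT.DetJ A.toAbVar) :
    mumfordTate A u v ℓ ≤ G := by
  obtain ⟨T, hT, q, hq, hqT⟩ := hP
  rw [periodMatrix_eq] at hqT
  have hpt := ptM_of hG hT hq hqT
  obtain ⟨K₁, hK₁, hrat⟩ := exists_rat_mult A (pt (dat A u v ℓ)) (by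
    rintro (i | l)
    · exact Or.inl (hM.point i)
    · exact Or.inl (hM.dual l))
  obtain ⟨h1, h2⟩ := Pool.Agent.R917.DT.hodge_stab6 hpt
    ⟨hM.point, hM.neg, hM.sub, hM.log⟩ hrat hdet
  refine sInf_le ⟨hG, fun z hz => ?_⟩
  obtain ⟨x, hx, hxe⟩ := Pool.Agent.R917.exp_mem hpt.grp fun k =>
    ((h2 k).smul ((Complex.log z).re : ℂ)).add ((h1 k).smul ((Complex.log z).im : ℂ))
  exact ⟨x, hx, deligne_exp A hz hxe⟩

/-- The matrix acts on the homology of the abelian part by `Y + q`. -/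
def Acts0 (Z : Matrix (Betti g n s) (Betti g n s) ℚ) (Y : Module.End ℚ A.toAbVar.H1) (q : ℚ) :
    Prop :=
  ∀ i j, Z (Sum.inl i) (Sum.inl j) = Y (Pi.single i 1) j + if i = j then q else 0

theorem scalar_zero {A : AbVar g} {c : ℚ} (h : (c • 1 : Module.End ℚ A.H1) ∈ A.NA) :
    (c • 1 : Module.End ℚ A.H1) = 0 := by
  by_cases hc : c = 0
  · rw [hc, zero_smul]
  · refine LinearMap.ext fun w => ?_
    have h1 : w = 0 := by
      apply A.om_nondeg
      intro x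
      have h2 := A.NA_skew h w x
      change A.om (c • w) x + A.om w (c • x) = 0 at h2
      rw [map_smul, map_smul, LinearMap.smul_apply, smul_eq_mul] at h2
      have h3 : c * A.om w x = 0 := by linarith
      exact (mul_eq_zero.1 h3).resolve_left hc
    rw [h1, map_zero, map_zero]

/-- **The centre and the unipotent radical.** -/
theorem main_cen (hM : IsOneMotive A u v ℓ) (hG : IsAlgebraicSubgroup G)
    (hP : ContainsPeriods A u v ℓ G) (hF : Pool.Agent.R917.DT.Fac A.toAbVar C f p)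
    (hrig : N208.CT.Rigid C) {X : Module.End ℚ C.H1} (hX : X ∈ C.CN)
    {Z : Matrix (Betti g n s) (Betti g n s) ℚ} (hZ : Z ∈ mtLie A u v ℓ) {q : ℚ}
    (hZX : Acts0 (A := A) Z (Pool.Agent.R917.DT.rs f p X) q) (t : ℂ) :
    IsIn G (NormedSpace.exp (t • cplx Z)) := by
  obtain ⟨T, hT, q', hq, hqT⟩ := hP
  rw [periodMatrix_eq] at hqT
  have hpt := ptM_of hG hT hq hqT
  obtain ⟨K₁, hK₁, hrat⟩ := exists_rat_mult A (pt (dat A u v ℓ)) (by
    rintro (i | l)
    · exact Or.inl (hM.point i)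
    · exact Or.inl (hM.dual l))
  have hLg := gg_Lg hpt
  obtain ⟨𝔮, h𝔮⟩ : ∃ 𝔮, 𝔮 = Pool.Agent.R917.DT.Fac.qq f p (aa (gg A.toAbVar n s
    {M | ∃ x ∈ G, (x : Matrix (Betti g n s) (Betti g n s) ℂ) = M})) := ⟨_, rfl⟩
  have hfull : C.Full 𝔮 := by
    rw [h𝔮]
    exact hF.qq_full (fun X hX Y hY => hLg.full.br X hX Y hY) (fun D lam => ⟨_, hLg.per D lam, rfl⟩)
  have hRC : Pool.Agent.R917.DT.RC 𝔮 := by
    rw [h𝔮]
    exact hF.qq_RC (Pool.Agent.R917.DT.aa_RC hpt)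
  have hCN := N208.OU.CN_le hfull hRC hrig
  -- the Lie algebra of the Mumford-Tate group is in the normalizer
  have h1 : mtLie A u v ℓ ≤ N208.OU.LL A n s
      {M | ∃ x ∈ G, (x : Matrix (Betti g n s) (Betti g n s) ℂ) = M} A.toAbVar.NA := by
    refine sInf_le ⟨fun X hX Y hY => N208.OU.LL_brr (le_refl _) hX hY fun x hx y hy =>
      A.toAbVar.NA_bracket hx hy, fun w => ⟨_, ?_, lie_deligne A w⟩⟩
    have hc := fun lam => N208.OU.exists_LL hpt ⟨hM.point, hM.neg, hM.sub, hM.log⟩ hrat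
      (fun r => A.toAbVar.MA_le_NA (A.toAbVar.J_mem r)) lam
    refine Submodule.add_mem _ (Submodule.smul_mem _ _ ?_) (Submodule.smul_mem _ _ ?_)
    · refine N208.OU.mem_span_of_comp fun lam => ?_
      rw [N208.OU.comp_tW]
      exact (hc lam).2
    · refine N208.OU.mem_span_of_comp fun lam => ?_
      rw [N208.OU.comp_tJ]
      exact (hc lam).1
  obtain ⟨W, hW, hW1, hW2⟩ := Pool.Agent.R917.DT.weight hpt
  obtain ⟨⟨L, hL, hLZ⟩, hLN⟩ := h1 hZ
  have hrX : Pool.Agent.R917.DT.rs f p X ∈ A.toAbVar.NA := hF.rs_NA hX.1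
  have hLX : L.1 = Pool.Agent.R917.DT.rs f p X := by
    have h2 : L.1 + L.2.1 • 1 = Pool.Agent.R917.DT.rs f p X + q • 1 := by
      refine LinearMap.pi_ext' fun i => LinearMap.ext_ring (funext fun j => ?_)
      have h3 := hZX i j
      rw [← hLZ] at h3
      have h4 : mtQ L (Sum.inl i) (Sum.inl j) = op L (eb A.toAbVar i) j := rfl
      rw [h4] at h3
      change op L (eb A.toAbVar i) j = (Pool.Agent.R917.DT.rs f p X (Pi.single i 1)) j +
        (q • (Pi.single i (1 : ℚ) : Fin (2 * g) → ℚ)) j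
      rw [h3, Pi.smul_apply, smul_eq_mul]
      congr 1
      by_cases hij : i = j
      · subst hij
        rw [if_pos rfl, Pi.single_eq_same, mul_one]
      · rw [if_neg hij, Pi.single_eq_of_ne (Ne.symm hij), mul_zero]
    have e1 := sub_smul q L.2.1 (1 : Module.End ℚ A.toAbVar.H1)
    have h3 : ((q - L.2.1) • 1 : Module.End ℚ A.toAbVar.H1) ∈ A.toAbVar.NA := by
      have h4 : ((q - L.2.1) • 1 : Module.End ℚ A.toAbVar.H1) =
          L.1 - Pool.Agent.R917.DT.rs f p X := by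
        refine e1.trans ?_
        rw [sub_eq_sub_iff_add_eq_add, h2, add_comm]
      rw [h4]
      exact Submodule.sub_mem _ hL hrX
    have h4 := e1.symm.trans (scalar_zero h3)
    rw [sub_eq_zero] at h4
    rw [h4] at h2
    exact add_right_cancel h2
  have hmem : Z ∈ N208.OU.gQ A n s
      {M | ∃ x ∈ G, (x : Matrix (Betti g n s) (Betti g n s) ℂ) = M} := by
    refine N208.OU.LL_gQ hLg hW hW1 hW2 (Z' := Submodule.span ℚ {L.1}) ?_
      ⟨⟨L, Submodule.mem_span_singleton_self _, hLZ⟩, hLN⟩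
    rw [Submodule.span_singleton_le_iff_mem, hLX]
    have h2 := hCN hX
    rw [h𝔮] at h2
    exact h2.2
  obtain ⟨L, hL, rfl⟩ := hmem
  exact Pool.Agent.R917.exp_mem hpt.grp fun k => (hL.2 k).smul t

end Final

end Pool.Agent.V8H93.PM
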