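import Pool.Agent.N208.OU.Main
import Pool.Agent.R917.DT.Rig
import Pool.Agent.V8H77.PC.Main

set_option autoImplicit false
set_option linter.unusedSectionVars false
set_option linter.unusedSimpArgs false

/-!
# Products of a determined abelian variety and of an abelian variety with complex multiplication
-/

open Module Function TensorProduct Matrix

noncomputable section

namespace Pool.Agent.V8H93.PM

open Pool.Agent.Y102 Pool.Agent.W516.DR Pool.Agent.H204R3.GP Pool.Agent.W516.KC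
  Pool.Agent.H204R3.SP Pool.Agent.TH119.MX Pool.Agent.R917 Pool.Agent.R917.OM
  Pool.Agent.R917.DT Pool.Agent.R917.EC Pool.Agent.Y102.AbVar

variable {g g' : ℕ} {B : AbVar g} {C : AbVar g'} {f : B.H1 →ₗ[ℚ] C.H1} {p : C.H1 →ₗ[ℚ] B.H1}

/-- Polynomials with the same values. -/
theorem aeval_eq_of_nodal {R : Type} [Ring R] [Algebra ℂ R] {M : R} {s : Finset ℂ}
    (hM : Polynomial.aeval M (Lagrange.nodal s id) = 0) {P Q : Polynomial ℂ}
    (h : ∀ a ∈ s, P.eval a = Q.eval a) : Polynomial.aeval M P = Polynomial.aeval M Q := by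
  have h1 : Lagrange.nodal s id ∣ P - Q := by
    unfold Lagrange.nodal
    refine Finset.prod_dvd_of_coprime ?_ ?_
    · intro a _ b _ hab
      exact Polynomial.isCoprime_X_sub_C_of_isUnit_sub (sub_ne_zero.2 hab).isUnit
    · intro a ha
      rw [Polynomial.dvd_iff_isRoot, Polynomial.IsRoot, Polynomial.eval_sub, id, h a ha, sub_self]
  obtain ⟨K, hK⟩ := h1
  rw [← sub_eq_zero, ← map_sub, hK, map_mul, hM, zero_mul]

theorem nodal_dvd {s t : Finset ℂ} (h : s ⊆ t) :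
    Lagrange.nodal s (id : ℂ → ℂ) ∣ Lagrange.nodal t id := by
  unfold Lagrange.nodal
  exact Finset.prod_dvd_prod_of_subset _ _ _ h

/-- The elements of the centre are diagonalizable. -/
theorem exists_nodal {Z : Module.End ℚ C.H1} (hZ : Z ∈ C.CN) :
    ∃ s : Finset ℂ, Polynomial.aeval (rm Z) (Lagrange.nodal s id) = 0 := by
  classical
  obtain ⟨m, b, χ, hb⟩ := C.exists_basis
  obtain ⟨Z', hZ'⟩ : ∃ Z' : C.ZA, Z' = ⟨Z, C.CN_le_ZA hZ⟩ := ⟨_, rfl⟩
  refine ⟨Finset.univ.image fun i => χ i Z', ?_⟩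
  have hN : Polynomial.aeval (Z.baseChange ℂ : Module.End ℂ (ℂ ⊗[ℚ] C.H1))
      (Lagrange.nodal (Finset.univ.image fun i => χ i Z') id) = 0 := by
    refine b.ext fun i => ?_
    have h1 : Module.End.HasEigenvector (Z.baseChange ℂ : Module.End ℂ (ℂ ⊗[ℚ] C.H1))
        (χ i Z') (b i) := ⟨Module.End.mem_eigenspace_iff.2 (by
          have h2 := hb i Z'
          rw [hZ'] at h2 ⊢
          exact h2), b.ne_zero i⟩
    rw [Module.End.aeval_apply_of_hasEigenvector h1]
    have h2 : (Lagrange.nodal (Finset.univ.image fun i => χ i Z') id).eval (χ i Z') = 0 :=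
      Lagrange.eval_nodal_at_node (v := id) (Finset.mem_image_of_mem _ (Finset.mem_univ i))
    rw [h2, zero_smul]
    rfl
  have hmat : ∀ P : Polynomial ℂ, Polynomial.aeval (rm Z) P =
      (LinearMap.toMatrixAlgEquiv (C.bas.baseChange ℂ)
        (Polynomial.aeval (Z.baseChange ℂ : Module.End ℂ (ℂ ⊗[ℚ] C.H1)) P))ᵀ := by
    intro P
    rw [rm_eq, aeval_transpose, ← Pool.Agent.R917.DT.toMatrix_bc, Polynomial.aeval_algHom_apply]
  rw [hmat, hN, map_zero, Matrix.transpose_zero]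

/-- The projector onto the complement of the factor, in terms of rows. -/
theorem rm_split (h : Fac B C f p) {X Z : Module.End ℚ C.H1} (hX : X ∈ C.NA) (hZ : Z ∈ C.NA)
    (hXZ : ∀ w, X (w - f (p w)) = Z (w - f (p w))) {s t : Finset ℂ}
    (hs : Polynomial.aeval (rm (rs f p X)) (Lagrange.nodal s id) = 0)
    (ht : Polynomial.aeval (rm Z) (Lagrange.nodal t id) = 0) :
    Polynomial.aeval (rm X) (Lagrange.nodal (s ∪ t) id) = 0 := by
  classical
  obtain ⟨F, hF⟩ : ∃ F, F = Lagrange.nodal (s ∪ t) (id : ℂ → ℂ) := ⟨_, rfl⟩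
  have hs' : Polynomial.aeval (rm (rs f p X)) F = 0 := by
    obtain ⟨K, hK⟩ := nodal_dvd (Finset.subset_union_left (s₁ := s) (s₂ := t))
    rw [hF, hK, map_mul, hs, zero_mul]
  have ht' : Polynomial.aeval (rm Z) F = 0 := by
    obtain ⟨K, hK⟩ := nodal_dvd (Finset.subset_union_right (s₁ := s) (s₂ := t))
    rw [hF, hK, map_mul, ht, zero_mul]
  -- the idempotent of the complement
  obtain ⟨e, he⟩ : ∃ e : Module.End ℚ C.H1, e = 1 - f.comp p := ⟨_, rfl⟩
  have hew : ∀ w, e w = w - f (p w) := fun w => by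
    rw [he]
    rfl
  have hfp : (f.comp p : Module.End ℚ C.H1) ∈ C.EA := h.mem_EA
  have hXe : X * e = e * X := by
    rw [he, mul_sub, sub_mul, mul_one, one_mul, C.NA_comm hX hfp]
  have hZe : Z * e = e * Z := by
    rw [he, mul_sub, sub_mul, mul_one, one_mul, C.NA_comm hZ hfp]
  have hXZe : X * e = Z * e := LinearMap.ext fun w => by
    rw [Module.End.mul_apply, Module.End.mul_apply, hew, hXZ]
  have hcomm : ∀ P : Polynomial ℂ, rm e * Polynomial.aeval (rm X) P =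
      rm e * Polynomial.aeval (rm Z) P := by
    intro P
    have h1 : rm e * rm X = rm e * rm Z := by
      rw [← rm_mul, ← rm_mul, hXZe]
    have h2 : rm e * rm Z = rm Z * rm e := by
      rw [← rm_mul, ← rm_mul, hZe]
    have h3 : rm X * rm e = rm e * rm X := by
      rw [← rm_mul, ← rm_mul, hXe]
    induction P using Polynomial.induction_on with
    | C b =>
      rw [Polynomial.aeval_C, Polynomial.aeval_C]
    | add p q hp hq => rw [map_add, map_add, Matrix.mul_add, Matrix.mul_add, hp, hq]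
    | monomial n b ih =>
      rw [pow_succ, ← mul_assoc, map_mul (Polynomial.aeval (rm X)) _ Polynomial.X,
        map_mul (Polynomial.aeval (rm Z)) _ Polynomial.X, Polynomial.aeval_X, Polynomial.aeval_X]
      have h4 := aeval_inter h3 (Polynomial.C b * Polynomial.X ^ n)
      rw [← Matrix.mul_assoc, ← h4, Matrix.mul_assoc, h1, ← Matrix.mul_assoc, h4, ih,
        Matrix.mul_assoc]
  have hsum : (1 : Matrix (Fin (2 * g')) (Fin (2 * g')) ℂ) = rm e + rq p * rq f := by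
    have h1 : (1 : Module.End ℚ C.H1) = e + f.comp p := by
      rw [he, sub_add_cancel]
    have h2 : rm (1 : Module.End ℚ C.H1) = 1 := by
      rw [rm_rq]
      exact rq_id
    rw [← h2, h1, rm_add, rm_rq (f.comp p), rq_comp]
  have h1 : Polynomial.aeval (rm X) F = rm e * Polynomial.aeval (rm X) F +
      rq p * (rq f * Polynomial.aeval (rm X) F) := by
    conv_lhs => rw [← Matrix.one_mul (Polynomial.aeval (rm X) F), hsum]
    rw [Matrix.add_mul, Matrix.mul_assoc]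
  rw [← hF, h1, hcomm, ht', Matrix.mul_zero, ← aeval_inter (h.rm_inter hX), hs', Matrix.zero_mul,
    Matrix.mul_zero, add_zero]

/-- The restrictions to the factor are closed under replicas. -/
theorem RC_map (h : Fac B C f p)
    (hcomm : ∀ X ∈ C.NA, ∀ Y ∈ C.NA, ∀ w, (X * Y - Y * X) (w - f (p w)) = 0)
    {𝔮 : Submodule ℚ (Module.End ℚ C.H1)} (hle : 𝔮 ≤ C.NA) (hRC : RC 𝔮) :
    RC (𝔮.map (rs f p)) := by
  classical
  rintro _ ⟨X, hX, rfl⟩ s hs σ Q hQ lam X' hX'
  obtain ⟨Z, hZ, d, hd, hXd, hc⟩ := (Pool.Agent.R917.DT.full_NA (A := C)).dec (hle hX)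
  have hZC : Z ∈ C.CN := ⟨hZ, fun Y hY => (hc Y hY).symm⟩
  have hd0 : ∀ w, d (w - f (p w)) = 0 := by
    unfold der at hd
    refine Submodule.span_induction (p := fun d _ => ∀ w, d (w - f (p w)) = 0) ?_ ?_ ?_ ?_ hd
    · rintro _ ⟨P, hP, Q, hQ, rfl⟩ w
      exact hcomm P hP Q hQ w
    · exact fun w => rfl
    · intro a b _ _ ha hb w
      rw [LinearMap.add_apply, ha w, hb w, add_zero]
    · intro c a _ ha w
      rw [LinearMap.smul_apply, ha w, smul_zero]
  obtain ⟨t, ht⟩ := exists_nodal hZC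
  have h1 := rm_split h (hle hX) hZ (fun w => by
    rw [hXd, LinearMap.add_apply, hd0, add_zero]) hs ht
  let Q' : Polynomial ℂ := Lagrange.interpolate (s ∪ t) id fun a => σ a
  have hQ' : ∀ a ∈ s ∪ t, Q'.eval a = σ a := fun a ha =>
    Lagrange.eval_interpolate_at_node (fun a => σ a) (Function.injective_id.injOn) ha
  refine ⟨_, hRC X hX (s ∪ t) h1 σ Q' hQ' lam _ (rm_cmpE lam X Q'), ?_⟩
  apply rm_inj'
  rw [Fac.rm_rs, rm_cmpE, ← rq_map_left, ← rq_map_right, ← h.aeval_rs (hle hX), hX']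
  congr 1
  exact aeval_eq_of_nodal hs fun a ha => by rw [hQ' a (Finset.mem_union_left _ ha), hQ a ha]

/-- **The derived algebra**, if one factor is determined and the Lie algebra acts on the other one by
commuting endomorphisms. -/
theorem der_le_of_fac (h : Fac B C f p) (hB : Det B)
    (hcomm : ∀ X ∈ C.NA, ∀ Y ∈ C.NA, ∀ w, (X * Y - Y * X) (w - f (p w)) = 0)
    {𝔮 : Submodule ℚ (Module.End ℚ C.H1)} (hle : 𝔮 ≤ C.NA)
    (hbr : ∀ X ∈ 𝔮, ∀ Y ∈ 𝔮, X * Y - Y * X ∈ 𝔮)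
    (h0 : ∀ (D : Derivation QBar ℂ ℂ) (lam : ℂ →ₗ[ℚ] ℚ), X0 C.basis tau D lam ∈ 𝔮)
    (hRC : RC 𝔮) : der C.NA ≤ 𝔮 := by
  have hfull : B.Full (𝔮.map (rs f p)) := by
    refine full_of_X0 B ?_ ?_ fun D lam => ⟨_, h0 D lam, h.rs_X0 D lam⟩
    · rintro _ ⟨X, hX, rfl⟩
      exact h.rs_NA (hle hX)
    · rintro _ ⟨X, hX, rfl⟩ _ ⟨Y, hY, rfl⟩
      refine ⟨X * Y - Y * X, hbr X hX Y hY, ?_⟩
      rw [map_sub, h.rs_mul (hle hY), h.rs_mul (hle hX)]
  have h1 := hB _ hfull (RC_map h hcomm hle hRC)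
  unfold der
  rw [Submodule.span_le]
  rintro _ ⟨X, hX, Y, hY, rfl⟩
  obtain ⟨X₁, hX₁, e1⟩ := h1 (h.rs_NA hX)
  obtain ⟨Y₁, hY₁, e2⟩ := h1 (h.rs_NA hY)
  have h2 : ∀ P Q : Module.End ℚ C.H1, P ∈ C.NA → Q ∈ C.NA → ∀ w, (P * Q - Q * P) w =
      f ((rs f p P * rs f p Q - rs f p Q * rs f p P) (p w)) := by
    intro P Q hP hQ w
    have h3 : (P * Q - Q * P) w = (P * Q - Q * P) (f (p w)) := by
      have h4 := hcomm P hP Q hQ w
      rw [map_sub, sub_eq_zero] at h4
      exact h4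
    have h4 : P * Q - Q * P ∈ C.NA := C.NA_bracket hP hQ
    rw [h3, ← h.fix h4, ← h.rs_mul hQ, ← h.rs_mul hP, ← map_sub]
    rfl
  have h3 : X * Y - Y * X = X₁ * Y₁ - Y₁ * X₁ := by
    refine LinearMap.ext fun w => ?_
    rw [h2 X Y hX hY, h2 X₁ Y₁ (hle hX₁) (hle hY₁)]
    have e1' : rs f p X₁ = rs f p X := e1
    have e2' : rs f p Y₁ = rs f p Y := e2
    rw [e1', e2']
  rw [h3]
  exact hbr _ hX₁ _ hY₁

end Pool.Agent.V8H93.PM
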